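import Pool.Agent.Helper69.MC.StA

/-!
# Project MC, module HUL: the convex hull property in the vertical direction
-/

set_option autoImplicit false

namespace Pool.Agent.Helper65.MC

open Set Topology Filter MeasureTheory
open Pool.Agent.Helper31.CY Pool.Agent.Helper69.MF Pool.Agent.Helper69.MC

/-- a point of `S` off the boundary, with `S` on one side of the horizontal plane through it -/
lemma hul_side (h1 : StHPL) (h2 : StHSS) {S Γ : Set E3} (hS : MPS S Γ) {p : E3} (hp : p ∈ S)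
    (hpG : p ∉ Γ) (hs : (∀ x ∈ S, p 2 ≤ x 2) ∨ (∀ x ∈ S, x 2 ≤ p 2)) :
    ∃ r : ℝ, 0 < r ∧ ∀ x : E3, dist x p < r → (x ∈ S ↔ x 2 = p 2) := by
  have hs' : (∃ r : ℝ, 0 < r ∧ ∀ x ∈ S, dist x p < r → p 2 ≤ x 2) ∨
      (∃ r : ℝ, 0 < r ∧ ∀ x ∈ S, dist x p < r → x 2 ≤ p 2) := by
    rcases hs with hs | hs
    · exact Or.inl ⟨1, one_pos, fun x hx _ => hs x hx⟩
    · exact Or.inr ⟨1, one_pos, fun x hx _ => hs x hx⟩
  rcases hS.int p hp hpG with hr | hm
  · exact h1 S p hp hr hs'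
  · exact absurd hs' (h2 S p hm)

lemma hul_pt_cont (M : ℝ) : Continuous (fun q : ℝ × ℝ => pt q.1 q.2 M) := by
  unfold pt
  refine (PiLp.continuous_toLp 2 _).comp ?_
  refine continuous_pi fun i => ?_
  fin_cases i
  · exact continuous_fst
  · exact continuous_snd
  · exact continuous_const

lemma hul_pt_eta (x : E3) : pt (x 0) (x 1) (x 2) = x := by
  ext i
  fin_cases i <;> simp [pt]

lemma hul_none (h1 : StHPL) (h2 : StHSS) {S Γ : Set E3} (hS : MPS S Γ) (M : ℝ)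
    (hG : ∀ x ∈ Γ, x 2 ≠ M) (hs : (∀ x ∈ S, M ≤ x 2) ∨ (∀ x ∈ S, x 2 ≤ M)) :
    ∀ x ∈ S, x 2 ≠ M := by
  intro y hy hyM
  have hcl : IsClosed {q : ℝ × ℝ | pt q.1 q.2 M ∈ S} :=
    hS.cpt.isClosed.preimage (hul_pt_cont M)
  have hcont : Continuous (fun x : E3 => ((x 0, x 1) : ℝ × ℝ)) := by fun_prop
  have hcp : IsCompact {q : ℝ × ℝ | pt q.1 q.2 M ∈ S} := by
    refine (hS.cpt.image hcont).of_isClosed_subset hcl ?_
    intro q hq
    exact ⟨pt q.1 q.2 M, hq, by simp [pt]⟩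
  have hop : IsOpen {q : ℝ × ℝ | pt q.1 q.2 M ∈ S} := by
    rw [isOpen_iff_mem_nhds]
    intro q hq
    have hp2 : (pt q.1 q.2 M) 2 = M := by simp [pt]
    obtain ⟨r, hr, hrS⟩ := hul_side h1 h2 hS (p := pt q.1 q.2 M) hq
      (fun hc => hG _ hc hp2) (by rw [hp2]; exact hs)
    have := (hul_pt_cont M).continuousAt.preimage_mem_nhds
      (x := q) (Metric.ball_mem_nhds (pt q.1 q.2 M) hr)
    filter_upwards [this] with q' hq'
    exact (hrS _ hq').2 (by simp [pt])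
  have hne : ({q : ℝ × ℝ | pt q.1 q.2 M ∈ S}).Nonempty := by
    refine ⟨(y 0, y 1), ?_⟩
    show pt (y 0) (y 1) M ∈ S
    rw [← hyM, hul_pt_eta]
    exact hy
  have huniv := IsClopen.eq_univ ⟨hcl, hop⟩ hne
  rw [huniv] at hcp
  exact noncompact_univ (ℝ × ℝ) hcp

theorem hHUL : StHPL → StHSS → StHUL := by
  intro h1 h2 K0 K1 h hh S hS
  have hGh : ∀ x ∈ Gm K0 K1 h, x 2 = 0 ∨ x 2 = h := by
    intro x hx
    rcases hx with hx | hx
    · exact Or.inl hx.2
    · exact Or.inr hx.2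
  have hc2 : Continuous (fun x : E3 => x 2) := by fun_prop
  have hfst : ∀ x ∈ S, 0 ≤ x 2 ∧ x 2 ≤ h := by
    intro x hx
    constructor
    · by_contra hlt
      push Not at hlt
      obtain ⟨y, hy, hmin⟩ := hS.cpt.exists_isMinOn ⟨x, hx⟩ hc2.continuousOn
      have hmin' : ∀ z ∈ S, y 2 ≤ z 2 := fun z hz => hmin hz
      have hy0 : y 2 < 0 := lt_of_le_of_lt (hmin' x hx) hlt
      refine hul_none h1 h2 hS (y 2) ?_ (Or.inl hmin') y hy rfl
      intro z hz he
      rcases hGh z hz with h0 | h0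
      · rw [h0] at he; linarith
      · rw [h0] at he; linarith
    · by_contra hlt
      push Not at hlt
      obtain ⟨y, hy, hmax⟩ := hS.cpt.exists_isMaxOn ⟨x, hx⟩ hc2.continuousOn
      have hmax' : ∀ z ∈ S, z 2 ≤ y 2 := fun z hz => hmax hz
      have hyh : h < y 2 := lt_of_lt_of_le hlt (hmax' x hx)
      refine hul_none h1 h2 hS (y 2) ?_ (Or.inr hmax') y hy rfl
      intro z hz he
      rcases hGh z hz with h0 | h0
      · rw [h0] at he; linarith
      · rw [h0] at he; linarith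
  refine ⟨hfst, ?_⟩
  intro p hp hpG hp2
  refine hul_side h1 h2 hS hp hpG ?_
  rcases hp2 with h0 | h0
  · exact Or.inl fun x hx => by rw [h0]; exact (hfst x hx).1
  · exact Or.inr fun x hx => by rw [h0]; exact (hfst x hx).2

end Pool.Agent.Helper65.MC
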